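import Pool.Agent.H97.SQ.MUL

namespace Pool.Agent.H97.SQ

open Finset Pool.Agent.H45.SQ
open scoped BigOperators ComplexConjugate

theorem anchT : T_ANCH := by
  intro G _ _ _ _ L t₀ X₀ b hb
  have hb0 : 0 ≤ b := (norm_nonneg _).trans (hb 0)
  refine ⟨?_, ?_, ?_⟩
  · rintro C ⟨Ω, hΩ, c, p, q, hp, hq, hc, hL⟩
    rcases hb0.eq_or_lt with h0 | h0
    · -- all anchors vanish
      have hX : ∀ x, X₀ x = 0 := fun x => by
        have := hb x
        rw [← h0] at this
        exact norm_le_zero_iff.mp this
      refine ⟨Ω, hΩ, fun _ => 0, fun _ _ _ => 0, fun _ _ _ => 0, by simp, by simp, ?_, ?_⟩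
      · simp [← h0]
      · intro o u v
        simp [anch, hX]
    · refine ⟨Ω, hΩ, fun w => ((b : ℂ) ^ 2) * conj (c w), fun w o u => conj (q w o u),
        fun w o v => (conj (X₀ v) / b) * (X₀ (v + o) / b) * conj (p w o (v + t₀)), ?_, ?_, ?_, ?_⟩
      · intro w o u
        rw [RCLike.norm_conj]
        exact hq _ _ _
      · intro w o u
        rw [norm_mul, norm_mul, norm_div, norm_div, RCLike.norm_conj, RCLike.norm_conj,
          Complex.norm_real, Real.norm_eq_abs, abs_of_pos h0]
        have h1 : ‖X₀ u‖ / b ≤ 1 := (div_le_one h0).mpr (hb _)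
        have h2 : ‖X₀ (u + o)‖ / b ≤ 1 := (div_le_one h0).mpr (hb _)
        have h3 := hp w o (u + t₀)
        have h4 : ‖X₀ u‖ / b * (‖X₀ (u + o)‖ / b) ≤ 1 :=
          mul_le_one₀ h1 (by positivity) h2
        exact mul_le_one₀ h4 (norm_nonneg _) h3
      · simp only [norm_mul, norm_pow, Complex.norm_real, Real.norm_eq_abs, RCLike.norm_conj]
        rw [← Finset.mul_sum, abs_of_pos h0, mul_comm C]
        exact mul_le_mul_of_nonneg_left hc (by positivity)
      · intro o u v
        unfold anch
        rw [hL, map_sum, Finset.mul_sum]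
        refine Finset.sum_congr rfl fun w _ => ?_
        rw [map_mul, map_mul]
        have hbc : (b : ℂ) ≠ 0 := by exact_mod_cast h0.ne'
        field_simp
  · intro h o u v
    unfold anch
    rw [map_mul, map_mul, Complex.conj_conj, Complex.conj_conj]
    have e1 : v + o + o = v := by
      rw [add_assoc, add_self2, add_zero]
    have h2 := h o (v + t₀) u
    have e2 : v + t₀ + o = v + o + t₀ := by abel
    rw [e2] at h2
    rw [e1, ← h2, Complex.conj_conj]
    ring
  · intro s
    funext y y'
    show mat (anch t₀ X₀ L) s y y' = Rm s t₀ X₀ (mat L (s + t₀)) y y'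
    unfold mat anch Rm
    have e1 : y + s + (y + y') = y' + s := by
      have : y + s + (y + y') = y + (y + y') + s := by abel
      rw [this, add_cancel2]
    have e2 : y + s + t₀ + (y' + s + t₀) = y + y' := by
      have : y + s + t₀ + (y' + s + t₀) = y + y' + (s + s) + (t₀ + t₀) := by abel
      rw [this, add_self2, add_self2, add_zero, add_zero]
    have e3 : y + s + t₀ + (s + t₀) = y := by
      have : y + s + t₀ + (s + t₀) = y + (s + s) + (t₀ + t₀) := by abel
      rw [this, add_self2, add_self2, add_zero, add_zero]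
    show _ = conj (X₀ (y + s)) * X₀ (y' + s) *
      conj ((Fintype.card G : ℂ)⁻¹ * L (y + s + t₀ + (y' + s + t₀)) (y + s + t₀)
        (y + s + t₀ + (s + t₀)))
    rw [e1, e2, e3, map_mul, map_inv₀]
    have h3 : conj ((Fintype.card G : ℂ)) = (Fintype.card G : ℂ) := by simp
    rw [h3]
    ring

end Pool.Agent.H97.SQ
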