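import Pool.Agent.H97.SQ.MUL

namespace Pool.Agent.H97.SQ

open Finset Pool.Agent.H45.SQ
open scoped BigOperators ComplexConjugate

theorem lin : T_LIN := by
  intro G _ _ _ _ L L' C C' c
  refine ⟨?_, ?_, ?_, ?_, ?_, ?_, ?_, ?_, ?_⟩
  · rintro ⟨Ω, hΩ, c, a, b, ha, hb, hc, hL⟩
    exact (Finset.sum_nonneg (fun _ _ => norm_nonneg _)).trans hc
  · rintro ⟨Ω, hΩ, c, a, b, ha, hb, hc, hL⟩ h
    exact ⟨Ω, hΩ, c, a, b, ha, hb, hc.trans h, hL⟩
  · rintro ⟨Ω, hΩ, c, a, b, ha, hb, hc, hL⟩ ⟨Ω', hΩ', c', a', b', ha', hb', hc', hL'⟩
    refine ⟨Ω ⊕ Ω', inferInstance, Sum.elim c c', Sum.elim a a', Sum.elim b b', ?_, ?_, ?_, ?_⟩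
    · rintro (w | w) o u
      · exact ha w o u
      · exact ha' w o u
    · rintro (w | w) o u
      · exact hb w o u
      · exact hb' w o u
    · rw [Fintype.sum_sum_type]
      exact add_le_add hc hc'
    · intro o u v
      show L o u v + L' o u v = _
      rw [Fintype.sum_sum_type, hL, hL']
      rfl
  · rintro ⟨Ω, hΩ, c', a, b, ha, hb, hc, hL⟩
    refine ⟨Ω, hΩ, fun w => (c : ℂ) * c' w, a, b, ha, hb, ?_, ?_⟩
    · simp only [norm_mul, Complex.norm_real, Real.norm_eq_abs]
      rw [← Finset.mul_sum]
      exact mul_le_mul_of_nonneg_left hc (abs_nonneg _)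
    · intro o u v
      show (c : ℂ) * L o u v = _
      rw [hL, Finset.mul_sum]
      refine Finset.sum_congr rfl fun w _ => ?_
      ring
  · intro h h' o u v
    show conj (L o u v + L' o u v) = L o (u + o) (v + o) + L' o (u + o) (v + o)
    rw [map_add, h, h']
  · intro h o u v
    show conj ((c : ℂ) * L o u v) = (c : ℂ) * L o (u + o) (v + o)
    rw [map_mul, h, Complex.conj_ofReal]
  · intro s
    funext y y'
    show mat _ s y y' = mat L s y y' + mat L' s y y'
    unfold mat
    ring
  · intro s
    funext y y'
    show mat _ s y y' = (c : ℂ) * mat L s y y'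
    unfold mat
    ring
  · have hN : ((Fintype.card G : ℂ))⁻¹ ≠ 0 := by
      have : 0 < Fintype.card G := Fintype.card_pos_iff.mpr ⟨0⟩
      exact inv_ne_zero (by exact_mod_cast this.ne')
    constructor
    · intro h s
      ext y y'
      rw [Matrix.conjTranspose_apply]
      show star (mat L s y' y) = mat L s y y'
      unfold mat
      rw [star_mul', star_inv₀]
      have h1 : star (L (y' + y) y' (y' + s)) = L (y + y') y (y + s) := by
        have := h (y' + y) y' (y' + s)
        rw [Complex.star_def, this, add_comm y' y]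
        have e1 : y' + (y + y') = y := by
          rw [add_comm y y', add_cancel2]
        have e2 : y' + s + (y + y') = y + s := by
          have : y' + s + (y + y') = (y' + (y + y')) + s := by abel
          rw [this, e1]
        rw [e1, e2]
      rw [h1]
      congr 1
      simp
    · intro h o u v
      have h1 := congrFun (congrFun (h (u + v)) (u + o)) u
      rw [Matrix.conjTranspose_apply] at h1
      have h2 : star (mat L (u + v) u (u + o)) = mat L (u + v) (u + o) u := h1
      unfold mat at h2
      rw [star_mul', star_inv₀] at h2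
      have e1 : u + (u + o) = o := add_cancel2 _ _
      have e2 : u + (u + v) = v := add_cancel2 _ _
      have e3 : u + o + u = o := by
        have : u + o + u = u + (u + o) := by abel
        rw [this, e1]
      have e4 : u + o + (u + v) = v + o := by
        have : u + o + (u + v) = u + (u + v) + o := by abel
        rw [this, e2]
      rw [e1, e2, e3, e4] at h2
      have h3 : star ((Fintype.card G : ℂ)) = (Fintype.card G : ℂ) := by simp
      rw [h3] at h2
      exact mul_left_cancel₀ hN h2

end Pool.Agent.H97.SQ
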