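import Pool.Agent.H45.SQ.Targets1

namespace Pool.Agent.H97.SQ

open Finset Pool.Agent.H45.SQ
open scoped BigOperators ComplexConjugate

variable {G : Type} [AddCommGroup G] [Fintype G] [DecidableEq G] [Module (ZMod 2) G]

omit [Fintype G] [DecidableEq G] in
lemma add_self2 (x : G) : x + x = 0 := by
  have h : ((1 : ZMod 2) + 1) • x = (0 : ZMod 2) • x := by
    congr 1
  rw [add_smul, one_smul, zero_smul] at h
  exact h

omit [Fintype G] [DecidableEq G] in
lemma add_cancel2 (x y : G) : x + (x + y) = y := by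
  rw [← add_assoc, add_self2, zero_add]

lemma mat_mulF (L L' : Fam G) (s : G) : mat (mulF L L') s = mat L s * mat L' s := by
  funext y y'
  show mat (mulF L L') s y y' = (mat L s * mat L' s) y y'
  rw [Matrix.mul_apply]
  unfold mat mulF
  rw [Fintype.expect_eq_sum_div_card, div_eq_mul_inv, mul_comm (Finset.sum _ _), ← mul_assoc,
    Finset.mul_sum]
  refine Finset.sum_equiv (Equiv.addLeft y) (by simp) ?_
  intro p _
  simp only [Equiv.coe_addLeft]
  rw [add_cancel2 y p]
  have e1 : y + y' + p = y + p + y' := by abel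
  have e2 : y + s + p = y + p + s := by abel
  rw [e1, e2]
  ring

theorem mul : T_MUL := by
  intro G _ _ _ _ L L'
  refine ⟨?_, mat_mulF L L'⟩
  rintro C C' ⟨Ω, hΩ, c, a, b, ha, hb, hc, hL⟩ ⟨Ω', hΩ', c', a', b', ha', hb', hc', hL'⟩
  refine ⟨G × (Ω × Ω'), inferInstance, fun w => ((Fintype.card G : ℂ))⁻¹ * (c w.2.1 * c' w.2.2),
    fun w o u => a w.2.1 w.1 u * a' w.2.2 (o + w.1) (u + w.1),
    fun w o v => b w.2.1 w.1 v * b' w.2.2 (o + w.1) (v + w.1), ?_, ?_, ?_, ?_⟩
  · intro w o u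
    rw [norm_mul]
    exact mul_le_one₀ (ha _ _ _) (norm_nonneg _) (ha' _ _ _)
  · intro w o u
    rw [norm_mul]
    exact mul_le_one₀ (hb _ _ _) (norm_nonneg _) (hb' _ _ _)
  · have hN : (0 : ℝ) < (Fintype.card G : ℝ) := by
      have : 0 < Fintype.card G := Fintype.card_pos_iff.mpr ⟨0⟩
      exact_mod_cast this
    have h1 : (∑ w : G × (Ω × Ω'), ‖((Fintype.card G : ℂ))⁻¹ * (c w.2.1 * c' w.2.2)‖) =
        (∑ w, ‖c w‖) * (∑ w, ‖c' w‖) := by
      rw [Fintype.sum_prod_type]
      simp only [norm_mul, norm_inv, Complex.norm_natCast]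
      rw [Finset.sum_const, Finset.card_univ, nsmul_eq_mul, ← Finset.mul_sum, ← mul_assoc,
        mul_inv_cancel₀ hN.ne', one_mul, Fintype.sum_prod_type, Finset.sum_mul_sum]
    rw [h1]
    have h0 : 0 ≤ ∑ w, ‖c' w‖ := Finset.sum_nonneg (fun _ _ => norm_nonneg _)
    have h0' : 0 ≤ ∑ w, ‖c w‖ := Finset.sum_nonneg (fun _ _ => norm_nonneg _)
    exact mul_le_mul hc hc' h0 (h0'.trans hc)
  · intro o u v
    unfold mulF
    rw [Fintype.expect_eq_sum_div_card, div_eq_mul_inv, mul_comm (Finset.sum _ _),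
      Finset.mul_sum, Fintype.sum_prod_type]
    refine Finset.sum_congr rfl fun p _ => ?_
    rw [hL, hL', Finset.sum_mul_sum, Finset.mul_sum, Fintype.sum_prod_type]
    refine Finset.sum_congr rfl fun w _ => ?_
    rw [Finset.mul_sum]
    refine Finset.sum_congr rfl fun w' _ => ?_
    ring

end Pool.Agent.H97.SQ
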